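import Mathlib
import Pool.Agent.H759R2.Kad.Props6

open scoped ComplexOrder InnerProductSpace ComplexConjugate
open Finset

noncomputable section

namespace H759R2.Kad

universe u v

/-- Positive and negative parts. -/
theorem c5_parts {A : Type u} [CStarAlgebra A] (x : A) (hx : star x = x) :
    ∃ c d : A, Pos c ∧ Pos d ∧ star c = c ∧ star d = d ∧ x = c - d ∧ c * d = 0 ∧ d * c = 0 := by
  have hsa : IsSelfAdjoint x := hx
  set y : A := cfc (fun r : ℝ => Real.sqrt (max r 0)) x with hy
  set z : A := cfc (fun r : ℝ => Real.sqrt (max (-r) 0)) x with hz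
  have hys : star y = y := (cfc_predicate (R := ℝ) (fun r : ℝ => Real.sqrt (max r 0)) x : IsSelfAdjoint _)
  have hzs : star z = z := (cfc_predicate (R := ℝ) (fun r : ℝ => Real.sqrt (max (-r) 0)) x : IsSelfAdjoint _)
  have hc : star y * y = cfc (fun r : ℝ => max r 0) x := by
    rw [hys, hy, ← cfc_mul _ _ x (by fun_prop) (by fun_prop)]
    congr 1
    ext r
    exact Real.mul_self_sqrt (le_max_right _ _)
  have hd : star z * z = cfc (fun r : ℝ => max (-r) 0) x := by
    rw [hzs, hz, ← cfc_mul _ _ x (by fun_prop) (by fun_prop)]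
    congr 1
    ext r
    exact Real.mul_self_sqrt (le_max_right _ _)
  have hcs : star (star y * y) = star y * y := by rw [star_mul, star_star]
  have hds : star (star z * z) = star z * z := by rw [star_mul, star_star]
  have h0 : (star y * y) * (star z * z) = 0 := by
    rw [hc, hd, ← cfc_mul _ _ x (by fun_prop) (by fun_prop)]
    have : (fun r : ℝ => max r 0 * max (-r) 0) = fun _ => (0 : ℝ) := by
      ext r
      rcases le_total r 0 with h | h
      · rw [max_eq_right h, zero_mul]
      · rw [max_eq_right (by linarith : -r ≤ 0), mul_zero]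
    rw [this]
    exact cfc_const_zero ℝ x
  refine ⟨star y * y, star z * z, ⟨y, rfl⟩, ⟨z, rfl⟩, hcs, hds, ?_, h0, ?_⟩
  · rw [hc, hd, ← cfc_sub _ _ x (by fun_prop) (by fun_prop)]
    conv_lhs => rw [← cfc_id' ℝ x]
    congr 1
    ext r
    rcases le_total r 0 with h | h
    · rw [max_eq_right h, max_eq_left (by linarith : 0 ≤ -r)]; ring
    · rw [max_eq_left h, max_eq_right (by linarith : -r ≤ 0)]; ring
  · have := congrArg star h0
    rw [star_mul, hcs, hds, star_zero] at this
    exact this

theorem prove6_spec (h : F_range.{u}) : C_spec.{u} := by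
  intro H _ _ _ M s a t hs ha hsa
  obtain ⟨hs1, hs2⟩ := hs
  have has : a * s = a := by
    have := congrArg star hsa
    rwa [star_mul, ha, hs1] at this
  obtain ⟨c, d, hcp, hdp, hcs, hds, hx, hcd, hdc⟩ := c5_parts (a - (t : ℂ) • s) (by
    rw [star_sub, star_smul, ha, hs1]
    simp)
  -- `s c = c`
  have hsx : s * (c - d) = c - d := by
    rw [← hx, mul_sub, hsa, mul_smul_comm, hs2]
  have hxs : (c - d) * s = c - d := by
    rw [← hx, sub_mul, has, smul_mul_assoc, hs2]
  have hcc : c * c = (c - d) * c := by rw [sub_mul, hdc, sub_zero]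
  have hdd : d * d = -((c - d) * d) := by rw [sub_mul, hcd, zero_sub, neg_neg]
  have hsc : s * c = c := by
    have h1 : (c - s * c) * star (c - s * c) = 0 := by
      rw [star_sub, star_mul, hcs, hs1]
      have h2 : s * (c * c) = c * c := by rw [hcc, ← mul_assoc, hsx]
      have h3 : (c - s * c) * c = 0 := by
        rw [sub_mul, mul_assoc, h2, sub_self]
      rw [mul_sub, ← mul_assoc, h3, zero_mul, sub_self]
    have h4 := (CStarRing.mul_star_self_eq_zero_iff _).mp h1
    exact (sub_eq_zero.mp h4).symm
  have hsd : s * d = d := by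
    have h1 : (d - s * d) * star (d - s * d) = 0 := by
      rw [star_sub, star_mul, hds, hs1]
      have h2 : s * (d * d) = d * d := by rw [hdd, mul_neg, ← mul_assoc, hsx]
      have h3 : (d - s * d) * d = 0 := by
        rw [sub_mul, mul_assoc, h2, sub_self]
      rw [mul_sub, ← mul_assoc, h3, zero_mul, sub_self]
    have h4 := (CStarRing.mul_star_self_eq_zero_iff _).mp h1
    exact (sub_eq_zero.mp h4).symm
  obtain ⟨p, hpM, hp, hpc, hpx⟩ := h H M (c : H →L[ℂ] H) c.2
  obtain ⟨hp1, hp2⟩ := hp
  let e : M.toStarSubalgebra := ⟨p, hpM⟩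
  have he1 : star e = e := Subtype.ext hp1
  have he2 : e * e = e := Subtype.ext hp2
  have hec : e * c = c := Subtype.ext hpc
  have hex : ∀ x : M.toStarSubalgebra, x * c = 0 → x * e = 0 := by
    intro x hx
    have := hpx (x : H →L[ℂ] H) (congrArg Subtype.val hx)
    exact Subtype.ext this
  have hce : c * e = c := by
    have := congrArg star hec
    rwa [star_mul, hcs, he1] at this
  have hde : d * e = 0 := hex d hdc
  have hed : e * d = 0 := by
    have := congrArg star hde
    rwa [star_mul, hds, he1, star_zero] at this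
  have hse : s * e = e := by
    have h1 : (1 - s) * e = 0 := hex (1 - s) (by rw [sub_mul, one_mul, hsc, sub_self])
    rw [sub_mul, one_mul] at h1
    exact (sub_eq_zero.mp h1).symm
  have hes : e * s = e := by
    have := congrArg star hse
    rwa [star_mul, hs1, he1] at this
  have ha' : a = c - d + (t : ℂ) • s := by rw [← hx]; abel
  have hea : e * a = c + (t : ℂ) • e := by
    rw [ha', mul_add, mul_sub, hec, hed, sub_zero, mul_smul_comm, hes]
  have hae : a * e = c + (t : ℂ) • e := by
    rw [ha', add_mul, sub_mul, hce, hde, sub_zero, smul_mul_assoc, hse]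
  refine ⟨e, ⟨he1, he2⟩, hse, by rw [hea, hae], ?_, ?_⟩
  · rw [hae, add_sub_cancel_right]; exact hcp
  · have : (t : ℂ) • (s - e) - a * (s - e) = d := by
      rw [mul_sub, has, hae, smul_sub, ha']
      abel
    rw [this]; exact hdp

end H759R2.Kad
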